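import Pool.Agent.H14.Cl3

namespace Pool.Agent.Results.MP_2a866c_an.NotCLP

open Matrix
open scoped ComplexOrder Kronecker

/-- `n × n` complex matrices. -/
abbrev Mat (n : ℕ) : Type := Matrix (Fin n) (Fin n) ℂ

/-- Coordinates of `(ℂ^n ⊗ ℂ^α) ⊕ (ℂ^n ⊗ ℂ^β) ⊕ ℂ^ζ`. -/
abbrev Idx (n α β ζ : ℕ) : Type := (Fin n × Fin α) ⊕ (Fin n × Fin β) ⊕ Fin ζ

/-- Operator norm of a matrix acting on Euclidean space. -/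
noncomputable def opNorm {n : ℕ} (X : Mat n) : ℝ :=
  ‖Matrix.toEuclideanCLM (n := Fin n) (𝕜 := ℂ) X‖

/-- The block matrix `(X ⊗ I_α) ⊕ (Xᵗ ⊗ I_β) ⊕ F`. -/
noncomputable def blk {n : ℕ} (α β : ℕ) {ζ : ℕ} (X : Mat n) (F : Mat ζ) :
    Matrix (Idx n α β ζ) (Idx n α β ζ) ℂ :=
  fromBlocks (X ⊗ₖ (1 : Mat α)) 0 0 (fromBlocks (Xᵀ ⊗ₖ (1 : Mat β)) 0 0 F)

/-- The vector `(h ⊗ h₁) ⊕ (conj h ⊗ h₂) ⊕ 0`. -/
def vec {n α β : ℕ} (ζ : ℕ) (h : Fin n → ℂ) (h₁ : Fin α → ℂ) (h₂ : Fin β → ℂ) :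
    Idx n α β ζ → ℂ :=
  Sum.elim (fun p => h p.1 * h₁ p.2) (Sum.elim (fun p => star (h p.1) * h₂ p.2) 0)

/-- `V* M V`. -/
noncomputable def compress {n α β ζ k : ℕ} (V : Matrix (Idx n α β ζ) (Fin k) ℂ)
    (M : Matrix (Idx n α β ζ) (Idx n α β ζ) ℂ) : Mat k :=
  Vᴴ * M * V

/-- The range of `V` meets each `{(h ⊗ h₁) ⊕ (conj h ⊗ h₂) ⊕ 0}` (`h ≠ 0`) in a nonzero vector. -/
def Meets {n α β ζ k : ℕ} (V : Matrix (Idx n α β ζ) (Fin k) ℂ) : Prop :=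
  ∀ h : Fin n → ℂ, h ≠ 0 →
    ∃ (v : Fin k → ℂ) (h₁ : Fin α → ℂ) (h₂ : Fin β → ℂ), V *ᵥ v ≠ 0 ∧ V *ᵥ v = vec ζ h h₁ h₂

/-- `Φ` agrees on hermitian matrices with a map of generalized CLP form
(`f` is only asked to preserve positive semidefiniteness). -/
def GenCLPForm {n k : ℕ} (Φ : Mat n → Mat k) : Prop :=
  ∃ (α β ζ : ℕ) (f : Mat n → Mat ζ) (V : Matrix (Idx n α β ζ) (Fin k) ℂ),
    (∀ X, X.PosSemidef → (f X).PosSemidef) ∧ compress V 1 = 1 ∧ Meets V ∧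
      ∀ X, X.IsHermitian → Φ X = compress V (blk α β X (f X))

theorem result : ∃ Φ : Mat 2 →ₗ[ℂ] Mat 6,
    (∀ X, X.IsHermitian → (Φ X).IsHermitian) ∧ Φ 1 = 1 ∧
    (∀ X, X.PosSemidef → (Φ X).PosSemidef) ∧
    (∀ X, X.IsHermitian → opNorm (Φ X) = opNorm X) ∧ ¬ GenCLPForm Φ := by
  refine ⟨Pool.Agent.H14.Cl.phi, Pool.Agent.H14.Cl.phi_herm, Pool.Agent.H14.Cl.phi_one,
    Pool.Agent.H14.Cl.phi_psd, Pool.Agent.H14.Cl.phi_norm, ?_⟩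
  rintro ⟨α, β, ζ, f, V, hf, hV, hK, hΦ⟩
  refine Pool.Agent.H14.Cl.main f V hf ?_ hK hΦ
  simpa [compress] using hV

end Pool.Agent.Results.MP_2a866c_an.NotCLP
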